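import Mathlib
import Pool.Agent.V11217.Trapezoid

/-!
A simplicial refinement of a trapezoid that does not factor through the projection simplex.
-/

namespace Pool.Agent.Results.MP_b12348_gt.NoFactorisation

open Set Pool.Agent.V11217.Refine Pool.Agent.V11217

/-- `f = p ∘ f'` as partial maps, including equality of domains. -/
def IsComp {E F G : Type} [AddCommGroup E] [Module ℝ E] [AddCommGroup F] [Module ℝ F]
    [AddCommGroup G] [Module ℝ G] {X : Set E} {Y : Set F} {Z : Set G}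
    (f : PartialMap X Z) (p : PartialMap Y Z) (f' : PartialMap X Y) : Prop :=
  (∀ x, x ∈ f.dom ↔ ∃ h : x ∈ f'.dom, f'.toFun ⟨x, h⟩ ∈ p.dom) ∧
  ∀ (x : E) (h : x ∈ f.dom) (h' : x ∈ f'.dom) (h'' : f'.toFun ⟨x, h'⟩ ∈ p.dom),
    f.toFun ⟨x, h⟩ = p.toFun ⟨f'.toFun ⟨x, h'⟩, h''⟩

/-- `T₀` is a simplex with vertices `e i` and `p` is the total affine map from `T₀` onto `C`
sending the vertices of `T₀` bijectively to the extreme points of `C`. -/
def IsProjection {E F : Type} [AddCommGroup E] [Module ℝ E] [AddCommGroup F] [Module ℝ F]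
    {T₀ : Set E} {C : Set F} (p : PartialMap T₀ C) : Prop :=
  p.dom = T₀ ∧ ∃ (m : ℕ) (e : Fin m → E) (c : Fin m → F), AffineIndependent ℝ e ∧
    T₀ = convexHull ℝ (Set.range e) ∧ Function.Injective c ∧
    Set.range c = C.extremePoints ℝ ∧
    ∀ (i : Fin m) (h : e i ∈ p.dom), p.toFun ⟨e i, h⟩ = c i

/-- A point of `T₀` over an extreme point exposed by a linear functional is a vertex. -/
theorem eq_vertex {E : Type} [AddCommGroup E] [Module ℝ E] {T₀ : Set E}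
    {C : Set (ℝ × ℝ)} (p : PartialMap T₀ C) (hdom : p.dom = T₀) {m : ℕ} {e : Fin m → E}
    {c : Fin m → ℝ × ℝ} (hT : T₀ = convexHull ℝ (Set.range e))
    (hpe : ∀ (i : Fin m) (h : e i ∈ p.dom), p.toFun ⟨e i, h⟩ = c i)
    (hc : Function.Injective c) (u v k : ℝ) (i : Fin m)
    (hk : u * (c i).1 + v * (c i).2 = k)
    (hlt : ∀ j, j ≠ i → u * (c j).1 + v * (c j).2 ≤ k - 1)
    (z : p.dom) (hz : p.toFun z = c i) : (z : E) = e i := by
  classical
  have hemem : ∀ j, e j ∈ p.dom := by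
    intro j; rw [hdom, hT]; exact subset_convexHull ℝ _ ⟨j, rfl⟩
  have hzT : (z : E) ∈ convexHull ℝ (Set.range e) := hT.subset (p.dom_subset z.2)
  rw [convexHull_range_eq] at hzT
  obtain ⟨w, hw, hzw⟩ := hzT
  have h1 := p.map_sum Finset.univ w (fun j => ⟨e j, hemem j⟩) (fun j _ => hw.1 j) hw.2 z hzw
  rw [hz] at h1
  have h2 : ∀ j, p.toFun ⟨e j, hemem j⟩ = c j := fun j => hpe j _
  simp only [h2] at h1
  have e1 : (c i).1 = ∑ j, w j * (c j).1 := by
    have := congrArg Prod.fst h1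
    rw [Prod.fst_sum] at this
    simpa using this
  have e2 : (c i).2 = ∑ j, w j * (c j).2 := by
    have := congrArg Prod.snd h1
    rw [Prod.snd_sum] at this
    simpa using this
  have h3 : k = ∑ j, w j * (u * (c j).1 + v * (c j).2) := by
    rw [← hk, e1, e2, Finset.mul_sum, Finset.mul_sum, ← Finset.sum_add_distrib]
    exact Finset.sum_congr rfl (fun j _ => by ring)
  have hwi : w i = 1 := by
    have h4 : ∑ j, w j * (u * (c j).1 + v * (c j).2) ≤
        ∑ j, w j * (if j = i then k else k - 1) := by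
      refine Finset.sum_le_sum (fun j _ => mul_le_mul_of_nonneg_left ?_ (hw.1 j))
      by_cases hj : j = i
      · rw [if_pos hj, hj, hk]
      · rw [if_neg hj]; exact hlt j hj
    have h5 : ∑ j, w j * (if j = i then k else k - 1) = (k - 1) + w i := by
      have : ∀ j, w j * (if j = i then k else k - 1) =
          w j * (k - 1) + (if j = i then w j else 0) := by
        intro j
        by_cases hj : j = i
        · rw [if_pos hj, if_pos hj]; ring
        · rw [if_neg hj, if_neg hj]; ring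
      simp only [this]
      rw [Finset.sum_add_distrib, ← Finset.sum_mul, hw.2, one_mul,
        Finset.sum_ite_eq' Finset.univ i w, if_pos (Finset.mem_univ i)]
    have h6 : w i ≤ 1 := by
      calc w i ≤ ∑ j, w j := Finset.single_le_sum (fun j _ => hw.1 j) (Finset.mem_univ i)
        _ = 1 := hw.2
    linarith
  have h0 : ∀ j, j ≠ i → w j = 0 := by
    intro j hj
    have h7 : w i + ∑ l ∈ Finset.univ.erase i, w l = ∑ l, w l :=
      Finset.add_sum_erase _ _ (Finset.mem_univ i)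
    have h8 : w j ≤ ∑ l ∈ Finset.univ.erase i, w l :=
      Finset.single_le_sum (fun l _ => hw.1 l) (Finset.mem_erase.2 ⟨hj, Finset.mem_univ j⟩)
    have h9 := hw.2
    have h10 := hw.1 j
    linarith
  rw [hzw, Finset.sum_eq_single i]
  · rw [hwi, one_smul]
  · intro j _ hj; rw [h0 j hj, zero_smul]
  · intro h; exact absurd (Finset.mem_univ i) h

theorem result : ∃ (C : Set (ℝ × ℝ)) (T : Set (Fin 5 → ℝ)) (f : PartialMap T C)
    (g : PartialMap (Effects T) (Effects C)),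
    IsPolytope C ∧ ¬ IsSimplex C ∧ IsRefinement T C f g ∧
    ∀ (E : Type) [AddCommGroup E] [Module ℝ E] (T₀ : Set E) (p : PartialMap T₀ C),
      IsProjection p →
      ¬ ∃ (g₀ : PartialMap (Effects T₀) (Effects C)) (f' : PartialMap T T₀)
          (g' : PartialMap (Effects T) (Effects T₀)),
        IsRefinement T₀ C p g₀ ∧ IsRefinement T T₀ f' g' ∧ IsComp f p f' ∧ IsComp g g₀ g' := by
  classical
  obtain ⟨φ, g, href, hdom, hval⟩ := Trapezoid.refinement
  refine ⟨Trapezoid.C, Trapezoid.T, φ, g, Trapezoid.polytope_C, Trapezoid.not_simplex_C, href, ?_⟩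
  intro E _ _ T₀ p hp
  obtain ⟨hpdom, m, e, c, he, hT₀, hc, hcr, hpe⟩ := hp
  rintro ⟨g₀, f', g', -, ⟨-, hcompat⟩, hcomp, -⟩
  -- the two points of the domain of `f`
  have hD3 : (![2 / 3, 0, 0, 1 / 3, 0] : Fin 5 → ℝ) ∈ φ.dom := by
    rw [hdom]
    refine ⟨?_, ?_⟩
    · rw [Trapezoid.mem_T]
      refine ⟨⟨?_, ?_, ?_, ?_, ?_⟩, ?_⟩
      · change (0 : ℝ) ≤ 2 / 3; norm_num
      · change (0 : ℝ) ≤ 0; norm_num
      · change (0 : ℝ) ≤ 0; norm_num
      · change (0 : ℝ) ≤ 1 / 3; norm_num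
      · change (0 : ℝ) ≤ 0; norm_num
      · change (2 / 3 + 0 + 0 + 1 / 3 + 0 : ℝ) = 1; norm_num
    · change (2 / 3 : ℝ) = 2 * (1 / 3 + 0); norm_num
  have hD4 : (![2 / 3, 0, 0, 0, 1 / 3] : Fin 5 → ℝ) ∈ φ.dom := by
    rw [hdom]
    refine ⟨?_, ?_⟩
    · rw [Trapezoid.mem_T]
      refine ⟨⟨?_, ?_, ?_, ?_, ?_⟩, ?_⟩
      · change (0 : ℝ) ≤ 2 / 3; norm_num
      · change (0 : ℝ) ≤ 0; norm_num
      · change (0 : ℝ) ≤ 0; norm_num
      · change (0 : ℝ) ≤ 0; norm_num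
      · change (0 : ℝ) ≤ 1 / 3; norm_num
      · change (2 / 3 + 0 + 0 + 0 + 1 / 3 : ℝ) = 1; norm_num
    · change (2 / 3 : ℝ) = 2 * (0 + 1 / 3); norm_num
  have hf3 : φ.toFun ⟨_, hD3⟩ = (2, 1) := by
    rw [hval]
    refine Prod.ext ?_ ?_
    · change (3 * 0 + 6 * (1 / 3) + 3 * 0 : ℝ) = 2; norm_num
    · change (3 * (1 / 3) + 3 * 0 : ℝ) = 1; norm_num
  have hf4 : φ.toFun ⟨_, hD4⟩ = (1, 1) := by
    rw [hval]
    refine Prod.ext ?_ ?_
    · change (3 * 0 + 6 * 0 + 3 * (1 / 3) : ℝ) = 1; norm_num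
    · change (3 * 0 + 3 * (1 / 3) : ℝ) = 1; norm_num
  have hcmem : ∀ j, c j ∈ (↑Trapezoid.verts : Set (ℝ × ℝ)) := by
    intro j
    rw [← Trapezoid.extremePoints_C, ← hcr]; exact ⟨j, rfl⟩
  obtain ⟨i3, hi3⟩ : ((2, 1) : ℝ × ℝ) ∈ Set.range c := by rw [hcr]; exact Trapezoid.ext3
  obtain ⟨i4, hi4⟩ : ((1, 1) : ℝ × ℝ) ∈ Set.range c := by rw [hcr]; exact Trapezoid.ext4
  obtain ⟨h3', h3''⟩ := (hcomp.1 _).1 hD3
  obtain ⟨h4', h4''⟩ := (hcomp.1 _).1 hD4
  have hp3 := hcomp.2 _ hD3 h3' h3''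
  have hp4 := hcomp.2 _ hD4 h4' h4''
  rw [hf3, ← hi3] at hp3
  rw [hf4, ← hi4] at hp4
  have hv3 : f'.toFun ⟨_, h3'⟩ = e i3 := by
    refine eq_vertex p hpdom hT₀ hpe hc 1 2 4 i3 (by rw [hi3]; norm_num) ?_
      ⟨_, h3''⟩ hp3.symm
    intro j hj
    have hne : c j ≠ (2, 1) := fun h => hj (hc (h.trans hi3.symm))
    have hjm := hcmem j
    simp only [Trapezoid.verts, Finset.coe_insert, Finset.coe_singleton, mem_insert_iff,
      mem_singleton_iff] at hjm
    rcases hjm with h | h | h | h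
    · rw [h]; norm_num
    · rw [h]; norm_num
    · exact absurd h hne
    · rw [h]; norm_num
  have hv4 : f'.toFun ⟨_, h4'⟩ = e i4 := by
    refine eq_vertex p hpdom hT₀ hpe hc (-1) 2 1 i4 (by rw [hi4]; norm_num) ?_
      ⟨_, h4''⟩ hp4.symm
    intro j hj
    have hne : c j ≠ (1, 1) := fun h => hj (hc (h.trans hi4.symm))
    have hjm := hcmem j
    simp only [Trapezoid.verts, Finset.coe_insert, Finset.coe_singleton, mem_insert_iff,
      mem_singleton_iff] at hjm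
    rcases hjm with h | h | h | h
    · rw [h]; norm_num
    · rw [h]; norm_num
    · rw [h]; norm_num
    · exact absurd h hne
  have h34 : i3 ≠ i4 := by
    intro h
    rw [h] at hi3
    rw [hi3] at hi4
    simp at hi4
  -- the barycentric coordinate at `i3` lifts
  obtain ⟨w, hw, hz, huniq⟩ := exists_bary he hT₀
  obtain ⟨ω, hω⟩ := g'.onto _ (bary_effect hw hz huniq i3)
  have hωT : (ω : Trapezoid.T → ℝ) ∈ Effects Trapezoid.T := g'.dom_subset ω.2
  have k3 := hcompat ⟨_, h3'⟩ ω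
  have k4 := hcompat ⟨_, h4'⟩ ω
  rw [hω] at k3 k4
  have hei : ∀ (i : Fin m) (z : T₀), (z : E) = e i → w z = Pi.single i 1 := by
    intro i z hzi
    symm
    apply huniq
    · simp
    · rw [hzi, Finset.sum_eq_single i]
      · simp
      · intro j _ hj; simp [hj]
      · intro h; exact absurd (Finset.mem_univ i) h
  have w3 : w ⟨f'.toFun ⟨_, h3'⟩, f'.maps _⟩ = Pi.single i3 1 := hei i3 _ hv3
  have w4 : w ⟨f'.toFun ⟨_, h4'⟩, f'.maps _⟩ = Pi.single i4 1 := hei i4 _ hv4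
  simp only [w3, w4] at k3 k4
  rw [Pi.single_eq_same] at k3
  rw [Pi.single_eq_of_ne h34] at k4
  -- values of `ω` at the vertices of `T`
  have hv : ∀ i : Fin 5, (Pi.single i 1 : Fin 5 → ℝ) ∈ Trapezoid.T :=
    fun i => single_mem_stdSimplex ℝ i
  have s3 := hωT.2 ⟨Pi.single 0 1, hv 0⟩ ⟨Pi.single 3 1, hv 3⟩ ⟨_, φ.dom_subset hD3⟩ (2 / 3)
    (by norm_num) (by norm_num) (by
      simp only
      ext j
      fin_cases j
      · change (2 / 3 : ℝ) = 2 / 3 * 1 + (1 - 2 / 3) * 0; norm_num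
      · change (0 : ℝ) = 2 / 3 * 0 + (1 - 2 / 3) * 0; norm_num
      · change (0 : ℝ) = 2 / 3 * 0 + (1 - 2 / 3) * 0; norm_num
      · change (1 / 3 : ℝ) = 2 / 3 * 0 + (1 - 2 / 3) * 1; norm_num
      · change (0 : ℝ) = 2 / 3 * 0 + (1 - 2 / 3) * 0; norm_num)
  have s4 := hωT.2 ⟨Pi.single 0 1, hv 0⟩ ⟨Pi.single 4 1, hv 4⟩ ⟨_, φ.dom_subset hD4⟩ (2 / 3)
    (by norm_num) (by norm_num) (by
      simp only
      ext j
      fin_cases j
      · change (2 / 3 : ℝ) = 2 / 3 * 1 + (1 - 2 / 3) * 0; norm_num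
      · change (0 : ℝ) = 2 / 3 * 0 + (1 - 2 / 3) * 0; norm_num
      · change (0 : ℝ) = 2 / 3 * 0 + (1 - 2 / 3) * 0; norm_num
      · change (0 : ℝ) = 2 / 3 * 0 + (1 - 2 / 3) * 0; norm_num
      · change (1 / 3 : ℝ) = 2 / 3 * 0 + (1 - 2 / 3) * 1; norm_num)
  have b0 := hωT.1 ⟨Pi.single 0 1, hv 0⟩
  have b3 := hωT.1 ⟨Pi.single 3 1, hv 3⟩
  have b4 := hωT.1 ⟨Pi.single 4 1, hv 4⟩
  rw [← k3] at s3
  rw [← k4] at s4
  linarith [b0.1, b0.2, b3.1, b3.2, b4.1, b4.2]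

end Pool.Agent.Results.MP_b12348_gt.NoFactorisation
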